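import Pool.Agent.H513Z.Inj.Main

set_option autoImplicit false

/-!
# It is consistent that `C(ℕ*)` is `ℵ₂`-injective

A forcing notion preserves `ω₁` and forces `MA_{ℵ₁}`; and in ZFC, `MA_κ` implies that `C(ℕ*)` is
`(3, κ⁺)`-injective for every infinite `κ`, so `MA_{ℵ₁}` implies that it is `ℵ₂`-injective.
-/

namespace Pool.Agent.Results.MP_b72cba_an.AMartinInjective

open Cardinal Pool.Agent.H513Z.Inj Pool.Agent.Helper292.ForceCH H318Z.MA

theorem result :
    (∃ (P : Type) (_ : Preorder P), Nonempty P ∧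
      ∀ p : P, p ∈ OmegaOnePreserved P ∧ p ∈ MAHolds P Om) ∧
    (∀ K : Type, Infinite K → MartinAxiom.{0, 0} K →
      LamInjective C(NStar, ℝ) 3 (Order.succ #K)) ∧
    (MartinAxiom.{0, 0} Om → AlephInjective C(NStar, ℝ) (ℵ_ 2)) :=
  ⟨exists_forcing, fun _ _ h => lamInjective h, alephInjective⟩

end Pool.Agent.Results.MP_b72cba_an.AMartinInjective
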